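import Pool.Agent.Zk28.TF.Prop7
import Pool.Agent.Zk26.TF.LeafDiv

/-!
The form which defines a distribution (module DF for helper28).
-/

set_option autoImplicit false
set_option linter.unusedSectionVars false

open FF Pool.Agent.W602.GT

namespace Pool.Agent.Zk25.TF

open Pool.Agent.Zk28.TS Pool.Agent.Zk28.TF

variable {K : Type} [Field K] [Algebra ℂ K] {n : ℕ}

/-- the values of a form of maximal degree on a tuple of regular vector fields -/
theorem omega_bound [Algebra.EssFiniteType ℂ K] (htr : Algebra.trdeg ℂ K = n)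
    {X : Set (Place ℂ K)} {δ : Place ℂ K → ℝ} (hδ : ∀ P ∈ X, 0 ≤ δ P ∧ δ P ≤ 1)
    {ω : (Fin n → Derivation ℂ K K) → K} (hω : IsPluri 1 ω)
    {k : Place ℂ K → ℤ} (hk : DivOf n X ω k)
    {x : Fin n → K} {b : Fin n → Derivation ℂ K K} (hF : Fr x b) (hωb : ω b ≠ 0)
    {P : Place ℂ K} (hPX : P ∈ X) (hP : Divisorial n P) {E : Fin n → Derivation ℂ K K}
    (hE : ∀ i, DerReg P (E i)) :
    GR P (k P + δ P + ∑ i, et P (δ P) (E i)) (ω E) := by
  classical
  obtain ⟨A, hA⟩ := exists_tri_full htr hP hF.indep
  obtain ⟨i0, hi0⟩ := exists_nonlog htr hP hF.indep hA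
  have hkP := divOf_frame htr hω hk hPX hP hF.indep hωb hA
  have h3 : ∑ i, et P (δ P) (fr A b i) = -(δ P) := by
    rw [Finset.sum_eq_single i0]
    · exact et_nlog hi0
    · intro i _ hi
      refine et_log ?_
      by_contra hno
      exact hi (hA.one i i0 hno hi0)
    · intro hno
      exact absurd (Finset.mem_univ _) hno
  set Y : Matrix (Fin n) (Fin n) K := Matrix.of fun i j => E i (x j) with hY
  set Z := Y * (Matrix.of A)⁻¹ with hZ
  have hZA : Z * Matrix.of A = Y :=
    Matrix.nonsing_inv_mul_cancel_right _ _ (isUnit_iff_ne_zero.mpr hA.det)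
  have hEY : ∀ i, ∑ j, Y i j • b j = E i := fun i => hF.2 (E i)
  have hEZ : ∀ i, ∑ j, Z i j • fr A b j = E i := by
    intro i
    have h1 : ∑ j, Z i j • fr A b j = ∑ j, (Z * Matrix.of A) i j • b j := by
      unfold fr
      simp only [Finset.smul_sum, smul_smul]
      rw [Finset.sum_comm]
      refine Finset.sum_congr rfl fun j _ => ?_
      rw [Matrix.mul_apply, Finset.sum_smul]
      rfl
    rw [h1, hZA, hEY i]
  have hord : ∀ i j, GR P (et P (δ P) (E i) - et P (δ P) (fr A b j)) (Z i j) := by
    intro i j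
    have h1 := hA.co (Z i) (by rw [hEZ]; exact hE i)
    refine et_dom (hδ P hPX) (h1.1 j) fun hl hn => ?_
    exact h1.2 (by rw [hEZ]; exact hl) j hn
  have h1 := det_dom Z _ _ hord
  rw [h3] at h1
  have h2 : ω E = Z.det * ((Matrix.of A).det * ω b) := by
    have h4 := hω Y b
    rw [pow_one] at h4
    have h5 : (fun i => ∑ j, Y i j • b j) = E := funext hEY
    rw [h5, ← hZA, Matrix.det_mul] at h4
    rw [h4]
    ring
  rw [h2]
  have h6 : GR P (k P : ℝ) ((Matrix.of A).det * ω b) := by
    right
    rw [P.ord_mul hA.det hωb, tri_det_all hA.low, ord_prod' _ _ fun i _ => hA.diag i, hkP]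
  refine (h1.mul h6).mono ?_
  linarith

theorem defining_form [Algebra.EssFiniteType ℂ K] [Module.Finite K (Derivation ℂ K K)]
    (_hn : 1 ≤ n) (htr : Algebra.trdeg ℂ K = n) {X : Set (Place ℂ K)} {δ : Place ℂ K → ℝ}
    (hδ : ∀ P ∈ X, 0 ≤ δ P ∧ δ P ≤ 1)
    {ω : (Fin n → Derivation ℂ K K) → K} (hω : IsPluri 1 ω) (hω0 : ∃ D, ω D ≠ 0)
    {k : Place ℂ K → ℤ} (hk : DivOf n X ω k) {F : Submodule K (Derivation ℂ K K)} (hF : F ≠ ⊤) :
    0 < n - Module.finrank K F ∧ ∃ t : MTensor K (Fin (n - Module.finrank K F)), t ≠ 0 ∧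
      MAdapted n X δ (fun P => -(k P + δ P) - vs δ F P) t ∧
      ∀ D : Fin (n - Module.finrank K F) → Derivation ℂ K K, (∃ i, D i ∈ F) → t D = 0 := by
  classical
  obtain ⟨x, b, hxb⟩ := exists_fr htr
  have hfr : Module.finrank K F < n := by
    have h1 := Submodule.finrank_lt hF
    rwa [hxb.finrank] at h1
  have hm : 0 < n - Module.finrank K F := by omega
  refine ⟨hm, ?_⟩
  have hωb : ω b ≠ 0 := by
    intro h0
    obtain ⟨D, hD⟩ := hω0
    apply hD
    have h1 := hω (Matrix.of fun i j => D i (x j)) b
    have h2 : (fun i => ∑ j, (Matrix.of fun i j => D i (x j)) i j • b j) = D := by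
      funext i
      exact hxb.2 (D i)
    rw [h2, h0, mul_zero] at h1
    exact h1
  -- the index set
  let e : Fin (Module.finrank K F) ⊕ Fin (n - Module.finrank K F) ≃ Fin n :=
    finSumFinEquiv.trans (finCongr (by omega))
  let L : Derivation ℂ K K →ₗ[K] (Fin (Module.finrank K F) ⊕ Fin (n - Module.finrank K F) → K) :=
    { toFun := fun D j => D (x (e j))
      map_add' := fun _ _ => rfl
      map_smul' := fun _ _ => rfl }
  let T : MultilinearMap K (fun _ : Fin (Module.finrank K F) ⊕ Fin (n - Module.finrank K F) =>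
      Derivation ℂ K K) K :=
    ω b • (Matrix.detRowAlternating (n := Fin (Module.finrank K F) ⊕
      Fin (n - Module.finrank K F)) (R := K)).toMultilinearMap.compLinearMap fun _ => L
  have hT : ∀ E, T E = ω b * (Matrix.of fun i j => E i (x (e j))).det := fun E => rfl
  have hTω : ∀ E, T E = ω fun i => E (e.symm i) := by
    intro E
    have h1 := hω (Matrix.of fun i j : Fin n => E (e.symm i) (x j)) b
    have h2 : (fun i => ∑ j, (Matrix.of fun i j : Fin n => E (e.symm i) (x j)) i j • b j) =
        fun i => E (e.symm i) := by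
      funext i
      exact hxb.2 (E (e.symm i))
    rw [h2, pow_one] at h1
    rw [h1, hT, mul_comm]
    congr 1
    rw [← Matrix.det_submatrix_equiv_self e]
    congr 1
    ext i j
    simp
  -- tuples and matrices
  have hL : Function.Injective L := by
    rw [← LinearMap.ker_eq_bot, LinearMap.ker_eq_bot']
    intro D hD
    rw [← hxb.2 D]
    refine Finset.sum_eq_zero fun i _ => ?_
    have h1 : D (x i) = 0 := by
      have h2 := congrFun hD (e.symm i)
      have h3 : L D (e.symm i) = D (x (e (e.symm i))) := rfl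
      rw [h3, Equiv.apply_symm_apply] at h2
      exact h2
    rw [h1, zero_smul]
  have hTne : ∀ E : Fin (Module.finrank K F) ⊕ Fin (n - Module.finrank K F) → Derivation ℂ K K,
      T E ≠ 0 ↔ LinearIndependent K E := by
    intro E
    have h1 : LinearIndependent K E ↔ LinearIndependent K (L ∘ E) :=
      ⟨fun h => h.map' L (LinearMap.ker_eq_bot.mpr hL), fun h => LinearIndependent.of_comp L h⟩
    rw [hT, mul_ne_zero_iff, h1]
    have h2 : (L ∘ E) = (Matrix.of fun i j => E i (x (e j))).row := rfl
    rw [h2, Matrix.linearIndependent_rows_iff_isUnit, Matrix.isUnit_iff_isUnit_det,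
      isUnit_iff_ne_zero]
    exact ⟨fun h => h.2, fun h => ⟨hωb, h⟩⟩
  let t0 : MultilinearMap K (fun _ : Fin (n - Module.finrank K F) => Derivation ℂ K K) K :=
    T.currySum (bas F)
  have ht0 : ∀ D, t0 D = T (Sum.elim (bas F) D) := fun D => by
    change T _ = T _
    congr 1
  refine ⟨(Algebra.linearMap K (AlgebraicClosure K)).compMultilinearMap t0, ?_, ?_, ?_⟩
  · obtain ⟨G, hG⟩ := Submodule.exists_isCompl F
    have hGr := Submodule.finrank_add_eq_of_isCompl hG
    rw [hxb.finrank] at hGr
    let D0 : Fin (n - Module.finrank K F) → Derivation ℂ K K :=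
      fun i => bas G (Fin.cast (by omega) i)
    have hD0 : LinearIndependent K D0 :=
      (bas_indep G).comp _ (Fin.cast_injective _)
    have hsp : Submodule.span K (Set.range D0) ≤ G := by
      rw [Submodule.span_le]
      rintro _ ⟨i, rfl⟩
      exact bas_mem G _
    have hli : LinearIndependent K (Sum.elim (bas F) D0) := by
      refine LinearIndependent.sum_type (bas_indep F) hD0 ?_
      rw [bas_span]
      exact hG.disjoint.mono_right hsp
    intro h0
    have h1 := (hTne _).mpr hli
    rw [← ht0] at h1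
    apply h1
    have h2 : algebraMap K (AlgebraicClosure K) (t0 D0) = 0 :=
      congrArg (fun s : MTensor K (Fin (n - Module.finrank K F)) => s D0) h0
    exact (map_eq_zero _).mp h2
  · intro P hPX hP D hD
    change AlgOrd P _ (algebraMap K (AlgebraicClosure K) (t0 D))
    refine AlgOrd.of_GR ?_
    obtain ⟨A, hA⟩ := exists_tri' htr hP (bas_indep F)
    have hvs : vs δ F P = ∑ i, et P (δ P) (fr A (bas F) i) - P.ord (Matrix.of A).det := by
      unfold vs
      rw [vol_eq (hδ P hPX) hA]
      unfold gv
      rw [Finset.sum_sub_distrib, tri_det_all hA.low, ord_prod' _ _ fun i _ => hA.diag i]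
      push_cast
      rfl
    have hdet : T (Sum.elim (fr A (bas F)) D) = (Matrix.of A).det * t0 D := by
      rw [ht0, hT, hT]
      have h1 : (Matrix.of fun i j => Sum.elim (fr A (bas F)) D i (x (e j))) =
          Matrix.fromBlocks (Matrix.of A) 0 0 1 *
            (Matrix.of fun i j => Sum.elim (bas F) D i (x (e j))) := by
        ext i j
        rw [Matrix.mul_apply, Fintype.sum_sum_type]
        rcases i with i | i
        · simp only [Matrix.of_apply, Sum.elim_inl, Matrix.fromBlocks_apply₁₁,
            Matrix.fromBlocks_apply₁₂, Matrix.zero_apply, zero_mul, Finset.sum_const_zero,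
            add_zero, fr]
          rw [der_sum]
        · simp only [Matrix.of_apply, Sum.elim_inr, Matrix.fromBlocks_apply₂₁,
            Matrix.fromBlocks_apply₂₂, Matrix.zero_apply, zero_mul, Finset.sum_const_zero,
            zero_add, Sum.elim_inl]
          rw [Finset.sum_eq_single i]
          · rw [Matrix.one_apply_eq, one_mul]
          · intro j' _ hj'
            rw [Matrix.one_apply_ne (Ne.symm hj'), zero_mul]
          · intro h
            exact absurd (Finset.mem_univ _) h
      rw [h1, Matrix.det_mul, Matrix.det_fromBlocks_zero₂₁, Matrix.det_one, mul_one]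
      ring
    have h1 := omega_bound htr hδ hω hk hxb hωb hPX hP
      (E := fun i => Sum.elim (fr A (bas F)) D (e.symm i)) (fun i => by
        rcases e.symm i with j | j
        · exact hA.reg j
        · exact hD j)
    rw [← hTω, hdet, Equiv.sum_comp e.symm fun s => et P (δ P) (Sum.elim (fr A (bas F)) D s),
      Fintype.sum_sum_type] at h1
    simp only [Sum.elim_inl, Sum.elim_inr] at h1
    rw [Pool.Agent.Zk26.TF.sum_et P (δ P) D] at h1
    rcases h1 with h1 | h1
    · left
      exact (mul_eq_zero.mp h1).resolve_left hA.det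
    · by_cases h2 : t0 D = 0
      · exact Or.inl h2
      right
      rw [P.ord_mul hA.det h2] at h1
      push_cast at h1 ⊢
      linarith
  · rintro D ⟨i, hi⟩
    change algebraMap K (AlgebraicClosure K) (t0 D) = 0
    rw [map_eq_zero, ht0]
    by_contra hne
    have h1 := (hTne _).mp hne
    have h2 := linearIndependent_sum.mp h1
    have h3 : D i ∈ Submodule.span K (Set.range (Sum.elim (bas F) D ∘ Sum.inl)) := by
      rw [Sum.elim_comp_inl, bas_span]
      exact hi
    have h4 : D i ∈ Submodule.span K (Set.range (Sum.elim (bas F) D ∘ Sum.inr)) := by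
      rw [Sum.elim_comp_inr]
      exact Submodule.subset_span ⟨i, rfl⟩
    have h5 := Submodule.disjoint_def.mp h2.2.2 _ h3 h4
    exact h1.ne_zero (Sum.inr i) h5

end Pool.Agent.Zk25.TF

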