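import Pool.Agent.Zk28.TF.NDefs

/-!
The divisor class of an invariant distribution is invariant (module IV for helper28).
-/

set_option autoImplicit false
set_option linter.unusedSectionVars false

open FF Pool.Agent.W602.GT

namespace Pool.Agent.Zk25.TF

open Pool.Agent.Zk28.TS Pool.Agent.Zk28.TF

variable {K : Type} [Field K] [Algebra ℂ K] {n : ℕ}

theorem conj_sum' (σ : K ≃ₐ[ℂ] K) {r : ℕ} (c : Fin r → K) (b : Fin r → Derivation ℂ K K) :
    conj σ (∑ i, c i • b i) = ∑ i, σ (c i) • conj σ (b i) := by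
  have h0 : conj σ 0 = 0 := by
    ext f
    rw [conj_apply]
    simp
  let F : Derivation ℂ K K →+ Derivation ℂ K K :=
    { toFun := conj σ, map_zero' := h0, map_add' := conj_add σ }
  have h1 : F (∑ i, c i • b i) = ∑ i, F (c i • b i) := map_sum F _ _
  change F (∑ i, c i • b i) = _
  rw [h1]
  exact Finset.sum_congr rfl fun i _ => conj_smul σ _ _

theorem conj_eq_zero {σ : K ≃ₐ[ℂ] K} {D : Derivation ℂ K K} (h : conj σ D = 0) : D = 0 := by
  ext f
  have h1 := congrArg (fun E : Derivation ℂ K K => E (σ f)) h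
  simp only [conj_apply, AlgEquiv.symm_apply_apply, Derivation.coe_zero, Pi.zero_apply] at h1
  simpa using h1

theorem conj_indep (σ : K ≃ₐ[ℂ] K) {r : ℕ} {b : Fin r → Derivation ℂ K K}
    (hb : LinearIndependent K b) : LinearIndependent K fun i => conj σ (b i) := by
  rw [Fintype.linearIndependent_iff] at hb ⊢
  intro g hg i
  have h1 : conj σ (∑ i, σ.symm (g i) • b i) = 0 := by
    rw [conj_sum', ← hg]
    exact Finset.sum_congr rfl fun i _ => by rw [AlgEquiv.apply_symm_apply]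
  have h2 := hb _ (conj_eq_zero h1) i
  exact (map_eq_zero σ.symm).mp h2

section place

variable {σ : K ≃ₐ[ℂ] K} {P Q : Place ℂ K} (hPQ : ∀ f, Q.ord (σ f) = P.ord f)

include hPQ

theorem reg_iff' (f : K) : Q.Reg (σ f) ↔ P.Reg f := by
  unfold Place.Reg
  rw [hPQ f]
  constructor
  · rintro (h | h)
    · exact Or.inl ((map_eq_zero σ).mp h)
    · exact Or.inr h
  · rintro (h | h)
    · exact Or.inl (by rw [h, map_zero])
    · exact Or.inr h

theorem gr_iff' (r : ℝ) (f : K) : GR Q r (σ f) ↔ GR P r f := by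
  unfold GR
  rw [hPQ f, map_eq_zero]

theorem derReg_iff' (D : Derivation ℂ K K) : DerReg Q (conj σ D) ↔ DerReg P D := by
  constructor
  · intro h f hf
    have h1 := h (σ f) ((reg_iff' hPQ f).mpr hf)
    rw [conj_apply, AlgEquiv.symm_apply_apply, reg_iff' hPQ] at h1
    exact h1
  · intro h f hf
    rw [conj_apply, reg_iff' hPQ]
    apply h
    rw [← reg_iff' hPQ, AlgEquiv.apply_symm_apply]
    exact hf

theorem derLog_iff' (D : Derivation ℂ K K) : DerLog Q (conj σ D) ↔ DerLog P D := by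
  constructor
  · intro h f
    rw [← reg_iff' hPQ]
    have h1 := h (σ f)
    rw [conj_apply, AlgEquiv.symm_apply_apply, ← map_div₀] at h1
    exact h1
  · intro h f
    have h1 := h (σ.symm f)
    rw [← reg_iff' hPQ, map_div₀, AlgEquiv.apply_symm_apply] at h1
    exact h1

theorem et_conj (δ : ℝ) (D : Derivation ℂ K K) : et Q δ (conj σ D) = et P δ D := by
  by_cases h : DerLog P D
  · rw [et_log h, et_log ((derLog_iff' hPQ D).mpr h)]
  · rw [et_nlog h, et_nlog fun h' => h ((derLog_iff' hPQ D).mp h')]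

end place

theorem fr_conj (σ : K ≃ₐ[ℂ] K) {r : ℕ} (b : Fin r → Derivation ℂ K K) (A : Fin r → Fin r → K)
    (i : Fin r) : fr (fun i j => σ (A i j)) (fun i => conj σ (b i)) i = conj σ (fr A b i) := by
  unfold fr
  rw [conj_sum']

theorem tri_conj {σ : K ≃ₐ[ℂ] K} {P Q : Place ℂ K} (hPQ : ∀ f, Q.ord (σ f) = P.ord f) {r : ℕ}
    {b : Fin r → Derivation ℂ K K} {A : Fin r → Fin r → K} (h : Tri P b A) :
    Tri Q (fun i => conj σ (b i)) (fun i j => σ (A i j)) := by
  have hs : ∀ x : Fin r → K, ∑ i, x i • fr (fun i j => σ (A i j)) (fun i => conj σ (b i)) i =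
      conj σ (∑ i, σ.symm (x i) • fr A b i) := by
    intro x
    rw [conj_sum']
    exact Finset.sum_congr rfl fun i _ => by rw [fr_conj, AlgEquiv.apply_symm_apply]
  refine ⟨fun i j hij => by rw [h.low i j hij, map_zero], ?_, fun i => ?_, fun i j hi hj => ?_,
    fun x hx => ?_⟩
  · have h1 : (Matrix.of fun i j => σ (A i j)) = (Matrix.of A).map σ := rfl
    have h2 : ((Matrix.of A).map σ).det = σ (Matrix.of A).det := by
      have := (RingHom.map_det (σ : K →+* K) (Matrix.of A)).symm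
      exact this
    rw [h1, h2]
    exact (map_ne_zero σ).mpr h.det
  · rw [fr_conj, derReg_iff' hPQ]
    exact h.reg i
  · rw [fr_conj, derLog_iff' hPQ] at hi hj
    exact h.one i j hi hj
  · rw [hs, derReg_iff' hPQ] at hx
    obtain ⟨h1, h2⟩ := h.co _ hx
    refine ⟨fun i => ?_, fun hl i hi => ?_⟩
    · have h3 := (gr_iff' hPQ 0 _).mpr (h1 i)
      rwa [AlgEquiv.apply_symm_apply] at h3
    · rw [hs, derLog_iff' hPQ] at hl
      rw [fr_conj, derLog_iff' hPQ] at hi
      have h3 := (gr_iff' hPQ 1 _).mpr (h2 hl i hi)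
      rwa [AlgEquiv.apply_symm_apply] at h3

theorem vol_conj {σ : K ≃ₐ[ℂ] K} {P Q : Place ℂ K} (hPQ : ∀ f, Q.ord (σ f) = P.ord f) {δ : ℝ}
    (hδ : 0 ≤ δ ∧ δ ≤ 1) {r : ℕ}
    {b : Fin r → Derivation ℂ K K} {A : Fin r → Fin r → K} (h : Tri P b A) :
    vol Q δ (fun i => conj σ (b i)) = vol P δ b := by
  rw [vol_eq hδ h, vol_eq hδ (tri_conj hPQ h)]
  refine Finset.sum_congr rfl fun i _ => ?_
  unfold gv
  rw [fr_conj, et_conj hPQ, hPQ]

/-- **Module IV.** The divisor class of an invariant distribution is invariant. -/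
theorem inv_vs [Algebra.EssFiniteType ℂ K] [Module.Finite K (Derivation ℂ K K)]
    (htr : Algebra.trdeg ℂ K = n) {X : Set (Place ℂ K)} {δ β : Place ℂ K → ℝ}
    (hδ : ∀ P ∈ X, 0 ≤ δ P ∧ δ P ≤ 1) {G : Set (K ≃ₐ[ℂ] K)}
    (hG : ∀ σ ∈ G, MPreserves X δ β σ) {W : Submodule K (Derivation ℂ K K)}
    (hW : InvSub G W) : InvariantClass n X G (vs δ W) := by
  intro σ hσ
  obtain ⟨y, hy, hvol⟩ := vol_two htr hδ (bas_indep W) (conj_indep σ (bas_indep W)) fun i => by
    rw [bas_span]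
    exact hW σ hσ _ (bas_mem W i)
  have hy' : σ.symm y ≠ 0 := (map_ne_zero σ.symm).mpr hy
  refine ⟨1, Nat.one_pos, (σ.symm y) ^ (-1 : ℤ), zpow_ne_zero _ hy', fun P hPX hP Q hQX hQ hPQ => ?_⟩
  obtain ⟨Q', hQ'X, hδ', -, hQ'⟩ := hG σ hσ P hPX
  have hQQ : Q' = Q := by
    apply Place.ext
    funext f
    have h4 := hQ' (σ.symm f)
    have h5 := hPQ (σ.symm f)
    rw [AlgEquiv.apply_symm_apply] at h4 h5
    rw [h4, h5]
  subst hQQ
  obtain ⟨A, hA⟩ := exists_tri' htr hP (bas_indep W)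
  have h1 := hvol Q' hQX hQ
  have h2 := vol_conj hPQ (hδ P hPX) hA
  have h3 := hPQ (σ.symm y)
  rw [AlgEquiv.apply_symm_apply] at h3
  rw [hδ', h2, h3] at h1
  rw [P.ord_zpow]
  unfold vs
  rw [hδ']
  push_cast
  linarith

end Pool.Agent.Zk25.TF
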