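import Pool.Agent.Zk28.TF.NDefs

/-!
Existence of a maximal group of invariant divisor classes without classes of nonzero effective divisors
(module ZN for helper28).
-/

set_option autoImplicit false
set_option linter.unusedSectionVars false

open FF Pool.Agent.W602.GT

namespace Pool.Agent.Zk25.TF

open Pool.Agent.Zk28.TS Pool.Agent.Zk28.TF

variable {K : Type} [Field K] [Algebra ℂ K] {n : ℕ}

theorem qe_refl {X : Set (Place ℂ K)} (D : Place ℂ K → ℝ) : QEquiv n X D D :=
  ⟨1, 1, Nat.one_pos, one_ne_zero, fun P _ _ => by rw [P.ord_one]; simp⟩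

theorem qe_symm {X : Set (Place ℂ K)} {D E : Place ℂ K → ℝ} (h : QEquiv n X D E) :
    QEquiv n X E D := by
  obtain ⟨N, z, hN, hz, h⟩ := h
  refine ⟨N, z ^ (-1 : ℤ), hN, zpow_ne_zero _ hz, fun P hPX hP => ?_⟩
  rw [P.ord_zpow]
  push_cast
  rw [← h P hPX hP]
  ring

theorem qe_add {X : Set (Place ℂ K)} {D E D' E' : Place ℂ K → ℝ} (h : QEquiv n X D E)
    (h' : QEquiv n X D' E') : QEquiv n X (fun P => D P + D' P) (fun P => E P + E' P) := by
  obtain ⟨N, z, hN, hz, h⟩ := h
  obtain ⟨N', z', hN', hz', h'⟩ := h'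
  refine ⟨N * N', z ^ (N' : ℤ) * z' ^ (N : ℤ), Nat.mul_pos hN hN',
    mul_ne_zero (zpow_ne_zero _ hz) (zpow_ne_zero _ hz'), fun P hPX hP => ?_⟩
  rw [P.ord_mul (zpow_ne_zero _ hz) (zpow_ne_zero _ hz'), P.ord_zpow, P.ord_zpow]
  push_cast
  rw [← h P hPX hP, ← h' P hPX hP]
  ring

theorem qe_trans {X : Set (Place ℂ K)} {D E F : Place ℂ K → ℝ} (h : QEquiv n X D E)
    (h' : QEquiv n X E F) : QEquiv n X D F := by
  obtain ⟨N, z, hN, hz, h⟩ := h
  obtain ⟨N', z', hN', hz', h'⟩ := h'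
  refine ⟨N * N', z ^ (N' : ℤ) * z' ^ (N : ℤ), Nat.mul_pos hN hN',
    mul_ne_zero (zpow_ne_zero _ hz) (zpow_ne_zero _ hz'), fun P hPX hP => ?_⟩
  rw [P.ord_mul (zpow_ne_zero _ hz) (zpow_ne_zero _ hz'), P.ord_zpow, P.ord_zpow]
  push_cast
  rw [← h P hPX hP, ← h' P hPX hP]
  ring

theorem qe_rat {X : Set (Place ℂ K)} {D E : Place ℂ K → ℝ} (h : QEquiv n X D E) (q : ℚ) :
    QEquiv n X (fun P => q * D P) (fun P => q * E P) := by
  obtain ⟨N, z, hN, hz, h⟩ := h
  refine ⟨q.den * N, z ^ q.num, Nat.mul_pos q.den_pos hN, zpow_ne_zero _ hz, fun P hPX hP => ?_⟩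
  rw [P.ord_zpow]
  have h6 : (q.den : ℝ) * q = q.num := by
    have h7 : (q : ℝ) = q.num / q.den := by exact_mod_cast (Rat.num_div_den q).symm
    have h8 : (q.den : ℝ) ≠ 0 := by exact_mod_cast q.den_pos.ne'
    rw [h7]
    field_simp
  push_cast
  rw [← h P hPX hP, ← h6]
  ring

/-- Invariance depends only on the class. -/
theorem inv_equiv {X : Set (Place ℂ K)} {G : Set (K ≃ₐ[ℂ] K)} {D E : Place ℂ K → ℝ}
    (hD : InvariantClass n X G D) (h : QEquiv n X D E) : InvariantClass n X G E := by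
  intro σ hσ
  obtain ⟨N, hN, z, hz, hD⟩ := hD σ hσ
  obtain ⟨M, w, hM, hw, h⟩ := h
  have hs : σ.symm w ≠ 0 := by
    intro h0
    apply hw
    rw [← σ.apply_symm_apply w, h0, map_zero]
  refine ⟨N * M, Nat.mul_pos hN hM, z ^ (M : ℤ) * (w ^ (N : ℤ) * (σ.symm w) ^ (-(N : ℤ))),
    mul_ne_zero (zpow_ne_zero _ hz) (mul_ne_zero (zpow_ne_zero _ hw) (zpow_ne_zero _ hs)),
    fun P hPX hP Q hQX hQ hPQ => ?_⟩
  have h1 := hD P hPX hP Q hQX hQ hPQ
  have h2 := h P hPX hP
  have h3 := h Q hQX hQ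
  have h4 := hPQ (σ.symm w)
  rw [AlgEquiv.apply_symm_apply] at h4
  rw [P.ord_mul (zpow_ne_zero _ hz) (mul_ne_zero (zpow_ne_zero _ hw) (zpow_ne_zero _ hs)),
    P.ord_mul (zpow_ne_zero _ hw) (zpow_ne_zero _ hs), P.ord_zpow, P.ord_zpow, P.ord_zpow, ← h4]
  push_cast
  rw [← h1, ← h2, ← h3]
  ring

/-- The group generated by a group and one class, except for the condition on effective classes. -/
theorem span_group {X : Set (Place ℂ K)} {G : Set (K ≃ₐ[ℂ] K)} {L D : Place ℂ K → ℝ}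
    {A : Set (Place ℂ K → ℝ)} (hA : NullGroup n X G L A) (hD : InvariantClass n X G D)
    (hnull : ∀ F, (∃ a ∈ A, ∃ q : ℚ, QEquiv n X F (fun P => a P + q * D P)) → ¬ PosDiv n X F) :
    NullGroup n X G L {F | ∃ a ∈ A, ∃ q : ℚ, QEquiv n X F (fun P => a P + q * D P)} where
  mem := ⟨L, hA.mem, 0, by
    have := qe_refl (n := n) (X := X) L
    convert this using 2
    simp⟩
  add := by
    rintro F ⟨a, ha, q, hF⟩ F' ⟨a', ha', q', hF'⟩
    refine ⟨_, hA.add a ha a' ha', q + q', ?_⟩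
    convert qe_add hF hF' using 1
    funext P
    push_cast
    ring
  rat := by
    rintro F ⟨a, ha, q, hF⟩ c
    refine ⟨_, hA.rat a ha c, c * q, ?_⟩
    convert qe_rat hF c using 1
    funext P
    push_cast
    ring
  equiv := by
    rintro F ⟨a, ha, q, hF⟩ F' hFF'
    exact ⟨a, ha, q, qe_trans (qe_symm hFF') hF⟩
  inv := by
    rintro F ⟨a, ha, q, hF⟩
    refine inv_equiv (D := fun P => a P + q * D P) ?_ (qe_symm hF)
    convert inv_comb (hA.inv a ha) hD 1 q using 1
    funext P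
    push_cast
    ring
  null := fun F hF => hnull F hF

theorem base_group {X : Set (Place ℂ K)} {G : Set (K ≃ₐ[ℂ] K)} {L : Place ℂ K → ℝ}
    (hinv : InvariantClass n X G L) (hL : NotAntiEffective n X L)
    (hno : ¬ Eff n X fun P => -L P) :
    NullGroup n X G L {F | ∃ q : ℚ, QEquiv n X F (fun P => q * L P)} where
  mem := ⟨1, by
    have := qe_refl (n := n) (X := X) L
    convert this using 2
    simp⟩
  add := by
    rintro F ⟨q, hF⟩ F' ⟨q', hF'⟩
    refine ⟨q + q', ?_⟩
    convert qe_add hF hF' using 1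
    funext P
    push_cast
    ring
  rat := by
    rintro F ⟨q, hF⟩ c
    refine ⟨c * q, ?_⟩
    convert qe_rat hF c using 1
    funext P
    push_cast
    ring
  equiv := by
    rintro F ⟨q, hF⟩ F' hFF'
    exact ⟨q, qe_trans (qe_symm hFF') hF⟩
  inv := by
    rintro F ⟨q, hF⟩
    refine inv_equiv (D := fun P => q * L P) ?_ (qe_symm hF)
    convert inv_comb hinv hinv q 0 using 1
    funext P
    push_cast
    ring
  null := by
    rintro F ⟨q, N, z, hN, hz, hF⟩ ⟨hpos, P0, hP0X, hP0, hF0⟩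
    have hNR : (0 : ℝ) < N := by exact_mod_cast hN
    have hdR : (0 : ℝ) < q.den := by exact_mod_cast q.den_pos
    have h6 : (q.den : ℝ) * q = q.num := by
      have h7 : (q : ℝ) = q.num / q.den := by exact_mod_cast (Rat.num_div_den q).symm
      rw [h7]
      field_simp
    have key : ∀ P ∈ X, Divisorial n P →
        (q.den : ℝ) * (N * F P) = N * q.num * L P + P.ord (z ^ (q.den : ℤ)) := by
      intro P hPX hP
      rw [P.ord_zpow]
      push_cast
      rw [← hF P hPX hP, ← h6]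
      ring
    rcases lt_trichotomy q 0 with hq | hq | hq
    · -- a multiple of `-L` is effective
      have hnum : q.num < 0 := Rat.num_neg.mpr hq
      have h1 : (((-q.num).toNat : ℤ) : ℝ) = -q.num := by
        rw [Int.toNat_of_nonneg (by omega)]
        push_cast
        ring
      push_cast at h1
      have h2 := hL.anti ((-q.num).toNat * N) (z ^ (q.den : ℤ)) (Nat.mul_pos (by omega) hN)
        (zpow_ne_zero _ hz) (fun P hPX hP => by
          have h3 := key P hPX hP
          have h4 := mul_nonneg hdR.le (mul_nonneg hNR.le (hpos P hPX hP))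
          push_cast
          rw [h1]
          nlinarith) P0 hP0X hP0
      have h3 := key P0 hP0X hP0
      have h4 := mul_pos hdR (mul_pos hNR hF0)
      push_cast at h2
      rw [h1] at h2
      nlinarith
    · subst hq
      obtain ⟨w, hw⟩ := hL.const z hz fun P hPX hP => by
        have h1 := hF P hPX hP
        have h2 := mul_nonneg hNR.le (hpos P hPX hP)
        have h3 : (0 : ℝ) ≤ P.ord z := by
          push_cast at h1
          nlinarith
        exact_mod_cast h3
      have hw0 : w ≠ 0 := by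
        rintro rfl
        rw [map_zero] at hw
        exact hz hw.symm
      have h1 := hF P0 hP0X hP0
      rw [← hw, P0.ord_const hw0] at h1
      have h2 := mul_pos hNR hF0
      push_cast at h1
      nlinarith
    · -- a multiple of `L` is effective
      apply hno
      have hnum : 0 < q.num := Rat.num_pos.mpr hq
      have h1 : ((q.num.toNat : ℤ) : ℝ) = q.num := by
        rw [Int.toNat_of_nonneg hnum.le]
      push_cast at h1
      refine ⟨q.num.toNat * N, Nat.mul_pos (by omega) hN, z ^ (q.den : ℤ), zpow_ne_zero _ hz,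
        fun P hPX hP => ?_⟩
      have h3 := key P hPX hP
      have h4 := mul_nonneg hdR.le (mul_nonneg hNR.le (hpos P hPX hP))
      push_cast
      rw [h1]
      nlinarith

/-- Every null group is contained in a maximal one. -/
theorem exists_max {X : Set (Place ℂ K)} {G : Set (K ≃ₐ[ℂ] K)} {L : Place ℂ K → ℝ}
    {A0 : Set (Place ℂ K → ℝ)} (hA0 : NullGroup n X G L A0) :
    ∃ A, A0 ⊆ A ∧ MaxNullGroup n X G L A := by
  obtain ⟨A, hA0A, hmax⟩ := zorn_subset_nonempty {A : Set (Place ℂ K → ℝ) | NullGroup n X G L A} (by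
    intro c hc hchain hne
    refine ⟨⋃₀ c, ⟨?_, ?_, ?_, ?_, ?_, ?_⟩, fun s hs => Set.subset_sUnion_of_mem hs⟩
    · obtain ⟨s, hs⟩ := hne
      exact ⟨s, hs, (hc hs).mem⟩
    · rintro x ⟨s, hs, hxs⟩ y ⟨t, ht, hyt⟩
      rcases hchain.total hs ht with h | h
      · exact ⟨t, ht, (hc ht).add x (h hxs) y hyt⟩
      · exact ⟨s, hs, (hc hs).add x hxs y (h hyt)⟩
    · rintro x ⟨s, hs, hxs⟩ q
      exact ⟨s, hs, (hc hs).rat x hxs q⟩
    · rintro x ⟨s, hs, hxs⟩ y hxy
      exact ⟨s, hs, (hc hs).equiv x hxs y hxy⟩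
    · rintro x ⟨s, hs, hxs⟩
      exact (hc hs).inv x hxs
    · rintro x ⟨s, hs, hxs⟩
      exact (hc hs).null x hxs) _ hA0
  obtain ⟨hA, hmax'⟩ := hmax
  replace hA : NullGroup n X G L A := hA
  refine ⟨A, hA0A, hA, fun D hD => ?_⟩
  by_cases hDA : D ∈ A
  · exact Or.inl hDA
  right
  by_contra hno'
  rw [not_or] at hno'
  obtain ⟨hno1, hno2⟩ := hno'
  have hnull : ∀ F, (∃ a ∈ A, ∃ q : ℚ, QEquiv n X F (fun P => a P + q * D P)) →
      ¬ PosDiv n X F := by
    rintro F ⟨a, ha, q, hF⟩ ⟨hpos, P0, hP0X, hP0, hF0⟩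
    rcases lt_trichotomy q 0 with hq | hq | hq
    · apply hno2
      have hqR : (q : ℝ) < 0 := by exact_mod_cast hq
      have hqq : (q : ℝ) * (q : ℝ)⁻¹ = 1 := mul_inv_cancel₀ hqR.ne
      have hq' : (0 : ℝ) < ((-q⁻¹ : ℚ) : ℝ) := by
        push_cast
        have := inv_lt_zero.mpr hqR
        linarith
      refine ⟨fun P => ((-q⁻¹ : ℚ) : ℝ) * F P, ⟨fun P hPX hP => mul_nonneg hq'.le (hpos P hPX hP),
        P0, hP0X, hP0, mul_pos hq' hF0⟩, ?_⟩
      refine hA.equiv (fun P => ((-q⁻¹ : ℚ) : ℝ) * a P) (hA.rat a ha _) _ ?_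
      have h1 := qe_add (qe_rat (qe_symm hF) (-q⁻¹)) (qe_refl (n := n) (X := X) D)
      convert h1 using 1
      · funext P
        push_cast
        linear_combination (D P) * hqq
      · funext P
        push_cast
        ring
    · subst hq
      refine hA.null F ?_ ⟨hpos, P0, hP0X, hP0, hF0⟩
      refine hA.equiv a ha F (qe_symm ?_)
      convert hF using 1
      funext P
      push_cast
      ring
    · apply hno1
      have hqR : (0 : ℝ) < (q : ℝ) := by exact_mod_cast hq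
      have hqq : (q : ℝ) * (q : ℝ)⁻¹ = 1 := mul_inv_cancel₀ hqR.ne'
      have hq' : (0 : ℝ) < ((q⁻¹ : ℚ) : ℝ) := by
        push_cast
        exact inv_pos.mpr hqR
      refine ⟨fun P => ((q⁻¹ : ℚ) : ℝ) * F P, ⟨fun P hPX hP => mul_nonneg hq'.le (hpos P hPX hP),
        P0, hP0X, hP0, mul_pos hq' hF0⟩, ?_⟩
      refine hA.equiv (fun P => ((-q⁻¹ : ℚ) : ℝ) * a P) (hA.rat a ha _) _ ?_
      have h1 := qe_add (qe_rat (qe_symm hF) (-q⁻¹)) (qe_refl (n := n) (X := X) D)
      convert h1 using 1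
      · funext P
        push_cast
        linear_combination (D P) * hqq
      · funext P
        push_cast
        ring
  have hB := span_group hA hD hnull
  have h1 : A ⊆ {F | ∃ a ∈ A, ∃ q : ℚ, QEquiv n X F (fun P => a P + q * D P)} := by
    intro F hF
    refine ⟨F, hF, 0, ?_⟩
    convert qe_refl (n := n) (X := X) F using 1
    funext P
    push_cast
    ring
  have h2 := hmax' hB h1
  apply hDA
  apply h2
  refine ⟨fun P => ((0 : ℚ) : ℝ) * L P, hA.rat L hA.mem 0, 1, ?_⟩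
  convert qe_refl (n := n) (X := X) D using 1
  funext P
  push_cast
  ring

theorem exists_maxNull {X : Set (Place ℂ K)} {G : Set (K ≃ₐ[ℂ] K)} {L : Place ℂ K → ℝ}
    (_hG : ∀ σ ∈ G, ∀ P ∈ X, ∃ Q ∈ X, ∀ f, Q.ord (σ f) = P.ord f)
    (hinv : InvariantClass n X G L) (hL : NotAntiEffective n X L)
    (hno : ¬ Eff n X fun P => -L P) : ∃ A, MaxNullGroup n X G L A := by
  obtain ⟨A, -, hA⟩ := exists_max (base_group hinv hL hno)
  exact ⟨A, hA⟩

end Pool.Agent.Zk25.TF
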